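import Mathlib
import Pool.Agent.Q147.CCSub

namespace Pool.Agent.Results.MP_e377f6_gt.NotATheorem

open Pool.Agent.Q147.CCSub

/-- Under `𝔭 > ω₁` every dense countably compact subgroup of `K^{ω₁}`, for `K = 𝕋` and for
`K = ℤ(p)`, contains an uncountable compact set. -/
theorem result (hp : PseudoGt) (I : Type) (hI : Cardinal.mk I = Cardinal.aleph 1) :
    (∀ D : AddSubgroup (I → UnitAddCircle), Dense (D : Set (I → UnitAddCircle)) →
      CtblyCompact (D : Set (I → UnitAddCircle)) →
      ∃ C : Set (I → UnitAddCircle), C ⊆ (D : Set (I → UnitAddCircle)) ∧ IsCompact C ∧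
        ¬ C.Countable) ∧
    (∀ p : ℕ, p.Prime → ∀ D : AddSubgroup (I → ZMod p), Dense (D : Set (I → ZMod p)) →
      CtblyCompact (D : Set (I → ZMod p)) →
      ∃ C : Set (I → ZMod p), C ⊆ (D : Set (I → ZMod p)) ∧ IsCompact C ∧ ¬ C.Countable) := by
  have hinf : Infinite I := by
    rw [Cardinal.infinite_iff, hI]
    exact Cardinal.aleph0_le_aleph 1
  constructor
  · intro D hD hcc
    have hnt : Nontrivial UnitAddCircle := by
      refine ⟨⟨((1 / 2 : ℝ) : UnitAddCircle), 0, ?_⟩⟩
      intro h
      rw [AddCircle.coe_eq_zero_iff] at h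
      obtain ⟨n, hn⟩ := h
      have h2 : ((2 * n : ℤ) : ℝ) = ((1 : ℤ) : ℝ) := by
        push_cast
        simp only [zsmul_eq_mul, mul_one] at hn
        linarith
      have h3 : (2 * n : ℤ) = 1 := by exact_mod_cast h2
      omega
    exact main hI.le hp D (infinite_of_dense _ hD) hcc
  · intro p hpp D hD hcc
    have : Fact p.Prime := ⟨hpp⟩
    have : NeZero p := ⟨hpp.ne_zero⟩
    have : Nontrivial (ZMod p) := inferInstance
    exact main hI.le hp D (infinite_of_dense _ hD) hcc

end Pool.Agent.Results.MP_e377f6_gt.NotATheorem
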